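import Pool.Agent.Lib.MP_df1243_an.Ins.Main

set_option autoImplicit false
open scoped ENNReal NNReal MeasureTheory Topology
open MeasureTheory Set Filter

namespace Pool.Agent.GoncharIns

open Pool.Agent.GoncharArc

lemma modulus_mono {Γ Γ' : (ℝ → Plane) → ℝ → ℝ → Prop}
    (h : ∀ γ a b, IsRectifiable γ a b → Γ γ a b → Γ' γ a b) : modulus Γ ≤ modulus Γ' := by
  refine le_iInf fun ρ => le_iInf fun hρ => le_iInf fun hadm => ?_
  exact iInf_le_of_le ρ (iInf_le_of_le hρ (iInf_le_of_le (fun γ a b hr hg => hadm γ a b hr (h γ a b hr hg)) le_rfl))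

/-- If some `ρ ∈ L²` has infinite integral along every curve of the family, the modulus vanishes. -/
lemma modulus_eq_zero {Γ : (ℝ → Plane) → ℝ → ℝ → Prop} {ρ : Plane → ℝ≥0∞} (hρ : Measurable ρ)
    (hfin : ∫⁻ x, ρ x ^ 2 ≠ ⊤)
    (h : ∀ γ a b, IsRectifiable γ a b → Γ γ a b → lineIntegral ρ γ a b = ⊤) : modulus Γ = 0 := by
  have hbound : ∀ n : ℕ, modulus Γ ≤ ENNReal.ofReal ((1 / ((n : ℝ) + 1)) ^ 2) * ∫⁻ x, ρ x ^ 2 := by
    intro n
    set a : ℝ≥0∞ := ENNReal.ofReal (1 / ((n : ℝ) + 1)) with ha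
    have ha0 : a ≠ 0 := by
      rw [ha, Ne, ENNReal.ofReal_eq_zero, not_le]; positivity
    refine iInf_le_of_le (fun x => a * ρ x) (iInf_le_of_le (hρ.const_mul a) (iInf_le_of_le ?_ ?_))
    · intro γ x y hr hg
      have h1 : lineIntegral (fun x => a * ρ x) γ x y = a * lineIntegral ρ γ x y := by
        unfold lineIntegral
        exact lintegral_const_mul' _ _ ENNReal.ofReal_ne_top
      rw [h1, h γ x y hr hg, ENNReal.mul_top ha0]
      exact le_top
    · simp_rw [mul_pow]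
      rw [lintegral_const_mul _ (hρ.pow_const 2), ha, ← ENNReal.ofReal_pow (by positivity)]
  have hlim : Tendsto (fun n : ℕ => ENNReal.ofReal ((1 / ((n : ℝ) + 1)) ^ 2) * ∫⁻ x, ρ x ^ 2)
      atTop (𝓝 0) := by
    have h1 : Tendsto (fun n : ℕ => ENNReal.ofReal ((1 / ((n : ℝ) + 1)) ^ 2)) atTop (𝓝 0) := by
      have h0 := (tendsto_one_div_add_atTop_nhds_zero_nat (𝕜 := ℝ)).pow 2
      have := ENNReal.tendsto_ofReal h0
      simpa using this
    have := ENNReal.Tendsto.mul_const h1 (b := ∫⁻ x, ρ x ^ 2) (Or.inr hfin)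
    simpa using this
  exact le_antisymm (ge_of_tendsto' hlim hbound) zero_le

/-- Conversely, a family of modulus zero has a `ρ ∈ L²` with infinite integral along every curve. -/
lemma exists_of_modulus_eq_zero {Γ : (ℝ → Plane) → ℝ → ℝ → Prop} (h : modulus Γ = 0) :
    ∃ ρ : Plane → ℝ≥0∞, Measurable ρ ∧ ∫⁻ x, ρ x ^ 2 ≠ ⊤ ∧
      ∀ γ a b, IsRectifiable γ a b → Γ γ a b → lineIntegral ρ γ a b = ⊤ := by
  have hex : ∀ n : ℕ, ∃ ρ : Plane → ℝ≥0∞, Measurable ρ ∧
      (∀ γ a b, IsRectifiable γ a b → Γ γ a b → 1 ≤ lineIntegral ρ γ a b) ∧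
      (n : ℝ≥0∞) ^ 2 * ∫⁻ x, ρ x ^ 2 ≤ 2⁻¹ ^ n := by
    intro n
    rcases Nat.eq_zero_or_pos n with hn | hn
    · subst hn
      have h1 : modulus Γ < ⊤ := by rw [h]; exact ENNReal.zero_lt_top
      unfold modulus at h1
      simp only [iInf_lt_iff] at h1
      obtain ⟨ρ, hρ, hadm, _⟩ := h1
      exact ⟨ρ, hρ, hadm, by simp⟩
    · have hn0 : ((n : ℝ≥0∞) ^ 2) ≠ 0 := pow_ne_zero _ (by exact_mod_cast hn.ne')
      have hntop : ((n : ℝ≥0∞) ^ 2) ≠ ⊤ := ENNReal.pow_ne_top (ENNReal.natCast_ne_top n)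
      have hpos : 0 < (2⁻¹ : ℝ≥0∞) ^ n / (n : ℝ≥0∞) ^ 2 := by
        refine ENNReal.div_pos ?_ hntop
        exact pow_ne_zero _ (ENNReal.inv_ne_zero.2 ENNReal.ofNat_ne_top)
      have h1 : modulus Γ < (2⁻¹ : ℝ≥0∞) ^ n / (n : ℝ≥0∞) ^ 2 := by rw [h]; exact hpos
      unfold modulus at h1
      simp only [iInf_lt_iff] at h1
      obtain ⟨ρ, hρ, hadm, hlt⟩ := h1
      refine ⟨ρ, hρ, hadm, ?_⟩
      calc (n : ℝ≥0∞) ^ 2 * ∫⁻ x, ρ x ^ 2 ≤ (n : ℝ≥0∞) ^ 2 * ((2⁻¹ : ℝ≥0∞) ^ n / (n : ℝ≥0∞) ^ 2) := by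
            gcongr
        _ = 2⁻¹ ^ n := ENNReal.mul_div_cancel hn0 hntop
  choose r hrm hradm hrint using hex
  -- the combined function
  set S : Plane → ℝ≥0∞ := fun x => ∑' n : ℕ, ((n : ℝ≥0∞) * r n x) ^ 2 with hS
  have hSm : Measurable S := Measurable.tsum fun n => ((hrm n).const_mul _).pow_const 2
  refine ⟨fun x => S x ^ (1 / 2 : ℝ), hSm.pow_const _, ?_, ?_⟩
  · have e : ∀ x, (S x ^ (1 / 2 : ℝ)) ^ 2 = S x := by
      intro x
      rw [← ENNReal.rpow_natCast, ← ENNReal.rpow_mul]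
      norm_num
    simp_rw [e]
    rw [hS, lintegral_tsum fun n => (((hrm n).const_mul _).pow_const 2).aemeasurable]
    have h1 : ∀ n : ℕ, ∫⁻ x, ((n : ℝ≥0∞) * r n x) ^ 2 ≤ 2⁻¹ ^ n := by
      intro n
      simp_rw [mul_pow]
      rw [lintegral_const_mul _ ((hrm n).pow_const 2)]
      exact hrint n
    refine ((ENNReal.tsum_le_tsum h1).trans_lt ?_).ne
    rw [ENNReal.tsum_geometric]
    refine ENNReal.inv_lt_top.2 ?_
    rw [tsub_pos_iff_lt]
    exact ENNReal.inv_lt_one.2 ENNReal.one_lt_two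
  · intro γ a b hr hg
    refine ENNReal.eq_top_of_forall_nnreal_le fun c => ?_
    obtain ⟨n, hn⟩ := exists_nat_ge c
    have h1 : (n : ℝ≥0∞) ≤ lineIntegral (fun x => (n : ℝ≥0∞) * r n x) γ a b := by
      have h2 : lineIntegral (fun x => (n : ℝ≥0∞) * r n x) γ a b = n * lineIntegral (r n) γ a b := by
        unfold lineIntegral
        exact lintegral_const_mul' _ _ (ENNReal.natCast_ne_top n)
      rw [h2]
      calc (n : ℝ≥0∞) = n * 1 := (mul_one _).symm
        _ ≤ _ := by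
          gcongr
          exact hradm n γ a b hr hg
    have h3 : lineIntegral (fun x => (n : ℝ≥0∞) * r n x) γ a b ≤
        lineIntegral (fun x => S x ^ (1 / 2 : ℝ)) γ a b := by
      unfold lineIntegral
      refine lintegral_mono fun s => ?_
      set x := naturalParameterization γ (Icc a b) a s
      have h4 : ((n : ℝ≥0∞) * r n x) ^ 2 ≤ S x := ENNReal.le_tsum n
      calc (n : ℝ≥0∞) * r n x = (((n : ℝ≥0∞) * r n x) ^ 2) ^ (1 / 2 : ℝ) := by
            rw [← ENNReal.rpow_natCast, ← ENNReal.rpow_mul]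
            norm_num
        _ ≤ S x ^ (1 / 2 : ℝ) := ENNReal.rpow_le_rpow h4 (by norm_num)
    refine le_trans ?_ (h1.trans h3)
    exact_mod_cast hn

/-- Non constant curves and `Reach`. -/
lemma reach_of_nonconst {E : Set Plane} {ρ : Plane → ℝ≥0∞} (hρ : Measurable ρ) {γ : ℝ → Plane}
    {a b : ℝ} (hr : IsRectifiable γ a b) (h : NonconstFrom E γ a b) :
    ∃ e ∈ E, ∃ p, p ≠ e ∧ Reach ρ e p (lineIntegral ρ γ a b) := by
  have ha : a ∈ Icc a b := ⟨le_rfl, hr.1⟩
  have hb : b ∈ Icc a b := ⟨hr.1, le_rfl⟩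
  obtain ⟨h1, t, ht, hne⟩ := h
  rcases h1 with h1 | h1
  · exact ⟨γ a, h1, γ t, hne, reach_of_curve hρ hr ha ht⟩
  · by_cases hab : γ a = γ b
    · exact ⟨γ b, h1, γ t, by rwa [← hab], reach_of_curve hρ hr hb ht⟩
    · exact ⟨γ b, h1, γ a, hab, reach_of_curve hρ hr hb ha⟩

/-- From admissibility for the curves to `RAdm`. -/
lemma radm_of_adm {E : Set Plane} {ρ : Plane → ℝ≥0∞} (hρ : Measurable ρ)
    (hadm : ∀ γ a b, IsRectifiable γ a b → Joining E (axis \ E) γ a b → 1 ≤ lineIntegral ρ γ a b) :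
    RAdm E ρ := by
  intro p hp q hq c h
  obtain ⟨γ, a, b, hr, h0, h1, h2⟩ := h.curve hρ
  exact (hadm γ a b hr (Or.inl ⟨by rw [h0]; exact hp, by rw [h1]; exact hq⟩)).trans h2

lemma radm_compl {E : Set Plane} {ρ : Plane → ℝ≥0∞} (hρ : Measurable ρ)
    (hadm : RAdm E ρ) : RAdm (axis \ E) ρ := by
  intro p hp q hq c h
  have hq' : q ∈ E := by
    by_contra hcon
    exact hq.2 ⟨hq.1, hcon⟩
  exact hadm q hq' p hp c (h.symm hρ)

/-- If `E` is null and `ρ ∈ L²` is admissible, the non constant curves from `E` have modulus zero. -/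
lemma nonconst_zero {E : Set Plane} (hE : E ⊆ axis) (hnull : volume (pt ⁻¹' E) = 0)
    {ρ : Plane → ℝ≥0∞} (hρ : Measurable ρ) (hfin : ∫⁻ x, ρ x ^ 2 ≠ ⊤) (hadm : RAdm E ρ) :
    modulus (NonconstFrom E) = 0 := by
  refine modulus_eq_zero hρ hfin fun γ a b hr hg => ?_
  obtain ⟨e, he, p, hp, hreach⟩ := reach_of_nonconst hρ hr hg
  exact null_top hE hnull hρ hfin hadm he hp hreach

lemma joining_nonconst {A B : Set Plane} (hAB : Disjoint A B) {γ : ℝ → Plane} {a b : ℝ}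
    (hr : IsRectifiable γ a b) (h : Joining A B γ a b) : NonconstFrom A γ a b := by
  have hb : b ∈ Icc a b := ⟨hr.1, le_rfl⟩
  rcases h with ⟨h1, h2⟩ | ⟨h1, h2⟩
  · exact ⟨Or.inl h1, b, hb, fun h => Set.disjoint_left.1 hAB h1 (h ▸ h2)⟩
  · exact ⟨Or.inr h2, b, hb, fun h => Set.disjoint_left.1 hAB h2 (h ▸ h1)⟩

lemma joining_symm {A B : Set Plane} {γ : ℝ → Plane} {a b : ℝ} (h : Joining A B γ a b) :
    Joining B A γ a b := by
  rcases h with h | h
  · exact Or.inr h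
  · exact Or.inl h

lemma measurableSet_axis : MeasurableSet axis := by
  have : Continuous fun x : Plane => x 1 := by fun_prop
  exact (isClosed_singleton.preimage this).measurableSet

lemma preimage_diff (E : Set Plane) : pt ⁻¹' (axis \ E) = (pt ⁻¹' E)ᶜ := by
  ext x
  constructor
  · rintro ⟨_, h⟩; exact h
  · intro h; exact ⟨pt_one x, h⟩

/-- The dichotomy for Borel sets. -/
theorem zero_or_top (E : Set Plane) (hEm : MeasurableSet E) (hE : E ⊆ axis) :
    (0 < modulus (NonconstFrom E) ∧ 0 < modulus (NonconstFrom (axis \ E)) →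
      modulus (Joining E (axis \ E)) = ⊤) ∧
    (modulus (NonconstFrom E) = 0 ∨ modulus (NonconstFrom (axis \ E)) = 0 →
      modulus (Joining E (axis \ E)) = 0) := by
  constructor
  · rintro ⟨h1, h2⟩
    refine iInf_eq_top.2 fun ρ => iInf_eq_top.2 fun hρ => iInf_eq_top.2 fun hadm => ?_
    by_contra hfin
    have hR := radm_of_adm hρ hadm
    by_cases hn1 : volume (pt ⁻¹' E) = 0
    · exact h1.ne' (nonconst_zero hE hn1 hρ hfin hR)
    by_cases hn2 : volume (pt ⁻¹' E)ᶜ = 0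
    · have hR' := radm_compl hρ hR
      refine h2.ne' (nonconst_zero sdiff_subset ?_ hρ hfin hR')
      rw [preimage_diff]
      exact hn2
    · exact pos_false hEm hn1 hn2 hρ hfin hR
  · have hdisj : Disjoint E (axis \ E) := disjoint_sdiff_self_right
    rintro (h | h)
    · refine le_antisymm (le_trans (modulus_mono fun γ a b hr hg => ?_) h.le) zero_le
      exact joining_nonconst hdisj hr hg
    · refine le_antisymm (le_trans (modulus_mono fun γ a b hr hg => ?_) h.le) zero_le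
      exact joining_nonconst hdisj.symm hr (joining_symm hg)

/-! ### Capacity -/

/-- Almost all circles about `e` have a finite integral. -/
lemma ae_circle {ρ : Plane → ℝ≥0∞} (hρ : Measurable ρ) (hfin : ∫⁻ x, ρ x ^ 2 ≠ ⊤) (e : Plane) :
    ∀ᵐ s ∂(volume.restrict (Ioi (0 : ℝ))),
      ENNReal.ofReal s * ∫⁻ θ in Ioc (-Real.pi) Real.pi, ρ (circ e s θ) ≠ ⊤ := by
  have h1 := polar e (hρ.pow_const 2)
  rw [h1] at hfin
  have h2 := ae_lt_top (measurable_angular e (hρ.pow_const 2)) hfin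
  filter_upwards [h2, ae_restrict_mem measurableSet_Ioi] with s hs hs0
  have hs0' : (0 : ℝ) < s := hs0
  have hne : ENNReal.ofReal s ≠ 0 := by rw [Ne, ENNReal.ofReal_eq_zero, not_le]; exact hs0'
  have h3 : ∫⁻ θ in Ioc (-Real.pi) Real.pi, ρ (circ e s θ) ^ 2 ≠ ⊤ := by
    intro h
    rw [h, ENNReal.mul_top hne] at hs
    exact lt_irrefl _ hs
  have h4 : ∫⁻ θ in Ioc (-Real.pi) Real.pi, ρ (circ e s θ) ≤
      ∫⁻ θ in Ioc (-Real.pi) Real.pi, (1 + ρ (circ e s θ) ^ 2) := by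
    refine lintegral_mono fun θ => ?_
    rcases le_total (ρ (circ e s θ)) 1 with h | h
    · exact h.trans le_self_add
    · refine le_trans ?_ le_add_self
      calc ρ (circ e s θ) = ρ (circ e s θ) * 1 := (mul_one _).symm
        _ ≤ ρ (circ e s θ) * ρ (circ e s θ) := by gcongr
        _ = _ := (pow_two _).symm
  refine ENNReal.mul_ne_top ENNReal.ofReal_ne_top (h4.trans_lt ?_).ne
  rw [lintegral_add_left measurable_const, lintegral_const,
    Measure.restrict_apply MeasurableSet.univ, univ_inter, Real.volume_Ioc, one_mul]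
  exact ENNReal.add_lt_top.2 ⟨ENNReal.ofReal_lt_top, lt_top_iff_ne_top.2 h3⟩

/-- Some ray from `e` has a finite integral outside every disc. -/
lemma exists_ray {ρ : Plane → ℝ≥0∞} (hρ : Measurable ρ) (hfin : ∫⁻ x, ρ x ^ 2 ≠ ⊤) (e : Plane) :
    ∃ θ ∈ Ioc (-Real.pi) Real.pi, ∀ s : ℝ, 0 < s → ∀ R : ℝ,
      ∫⁻ r in Icc s R, ρ (circ e r θ) ≠ ⊤ := by
  have hpi := Real.pi_pos
  have h1 := polar e (hρ.pow_const 2)
  have hm : Measurable fun p : ℝ × ℝ => ENNReal.ofReal p.1 * ρ (circ e p.1 p.2) ^ 2 :=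
    (ENNReal.measurable_ofReal.comp measurable_fst).mul
      ((hρ.comp (continuous_circ e).measurable).pow_const 2)
  have h2 : ∫⁻ θ in Ioc (-Real.pi) Real.pi, ∫⁻ s in Ioi (0 : ℝ),
      ENNReal.ofReal s * ρ (circ e s θ) ^ 2 ≠ ⊤ := by
    rw [← lintegral_lintegral_swap (f := fun s θ => ENNReal.ofReal s * ρ (circ e s θ) ^ 2)
      hm.aemeasurable]
    have h3 : ∀ s : ℝ, ∫⁻ θ in Ioc (-Real.pi) Real.pi, ENNReal.ofReal s * ρ (circ e s θ) ^ 2 =
        ENNReal.ofReal s * ∫⁻ θ in Ioc (-Real.pi) Real.pi, ρ (circ e s θ) ^ 2 :=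
      fun s => lintegral_const_mul' _ _ ENNReal.ofReal_ne_top
    simp_rw [h3]
    rw [← h1]
    exact hfin
  have hm' : Measurable fun θ : ℝ => ∫⁻ s in Ioi (0 : ℝ), ENNReal.ofReal s * ρ (circ e s θ) ^ 2 :=
    Measurable.lintegral_prod_left' hm
  have h4 := ae_lt_top hm' h2
  have hne : volume (Ioc (-Real.pi) Real.pi) ≠ 0 := by
    rw [Real.volume_Ioc, Ne, ENNReal.ofReal_eq_zero, not_le]; linarith
  obtain ⟨θ, hθ, hθ'⟩ : ∃ θ ∈ Ioc (-Real.pi) Real.pi,
      ∫⁻ s in Ioi (0 : ℝ), ENNReal.ofReal s * ρ (circ e s θ) ^ 2 < ⊤ := by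
    by_contra hno
    push Not at hno
    rw [ae_restrict_iff' measurableSet_Ioc] at h4
    refine hne (measure_mono_null (t := {θ | ¬ (θ ∈ Ioc (-Real.pi) Real.pi →
      ∫⁻ s in Ioi (0 : ℝ), ENNReal.ofReal s * ρ (circ e s θ) ^ 2 < ⊤)}) ?_ h4)
    intro θ hθ hcon
    exact absurd (hcon hθ) (not_lt.2 (hno θ hθ))
  refine ⟨θ, hθ, fun s hs R => ?_⟩
  have h5 : ENNReal.ofReal s * ∫⁻ r in Icc s R, ρ (circ e r θ) ^ 2 ≤
      ∫⁻ s in Ioi (0 : ℝ), ENNReal.ofReal s * ρ (circ e s θ) ^ 2 := by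
    rw [← lintegral_const_mul' _ _ ENNReal.ofReal_ne_top]
    refine le_trans (setLIntegral_mono' measurableSet_Icc fun r hr => ?_)
      (lintegral_mono_set (fun r hr => lt_of_lt_of_le hs hr.1))
    gcongr
    exact hr.1
  have hsne : ENNReal.ofReal s ≠ 0 := by rw [Ne, ENNReal.ofReal_eq_zero, not_le]; exact hs
  have h6 : ∫⁻ r in Icc s R, ρ (circ e r θ) ^ 2 ≠ ⊤ := by
    intro h
    rw [h, ENNReal.mul_top hsne] at h5
    exact absurd (h5.trans_lt hθ') (lt_irrefl _)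
  have h7 : ∫⁻ r in Icc s R, ρ (circ e r θ) ≤ ∫⁻ r in Icc s R, (1 + ρ (circ e r θ) ^ 2) := by
    refine lintegral_mono fun r => ?_
    rcases le_total (ρ (circ e r θ)) 1 with h | h
    · exact h.trans le_self_add
    · refine le_trans ?_ le_add_self
      calc ρ (circ e r θ) = ρ (circ e r θ) * 1 := (mul_one _).symm
        _ ≤ ρ (circ e r θ) * ρ (circ e r θ) := by gcongr
        _ = _ := (pow_two _).symm
  refine (h7.trans_lt ?_).ne
  rw [lintegral_add_left measurable_const, lintegral_const,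
    Measure.restrict_apply MeasurableSet.univ, univ_inter, Real.volume_Icc, one_mul]
  exact ENNReal.add_lt_top.2 ⟨ENNReal.ofReal_lt_top, lt_top_iff_ne_top.2 h6⟩

/-- A set in the disc of radius `R` whose joining family with the circle of radius `R` has modulus
zero is removable: also the non constant curves from it have modulus zero. -/
lemma nonconst_zero_of_cap {E : Set Plane} {R : ℝ} (hE : E ⊆ Metric.ball 0 R)
    (h : modulus (Joining E (Metric.sphere 0 R)) = 0) : modulus (NonconstFrom E) = 0 := by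
  have hpi := Real.pi_pos
  obtain ⟨ρ, hρ, hfin, htop⟩ := exists_of_modulus_eq_zero h
  refine modulus_eq_zero hρ hfin fun γ a b hr hg => ?_
  by_contra hne
  obtain ⟨e, he, p, hp, hreach⟩ := reach_of_nonconst hρ hr hg
  obtain ⟨d, hd, hcirc⟩ := hreach.small hρ hne hp one_ne_zero
  -- norm of `e`
  have hnorm : ‖e‖ < R := mem_ball_zero_iff.1 (hE he)
  have he0 : 0 ≤ ‖e‖ := norm_nonneg e
  -- a good radius
  obtain ⟨s, hs0, hsd, hs1, hsfin⟩ : ∃ s : ℝ, 0 < s ∧ s < d ∧ s < R - ‖e‖ ∧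
      ENNReal.ofReal s * ∫⁻ θ in Ioc (-Real.pi) Real.pi, ρ (circ e s θ) ≠ ⊤ := by
    by_contra hno
    push Not at hno
    have h1 := ae_circle hρ hfin e
    rw [ae_restrict_iff' measurableSet_Ioi] at h1
    have h2 : volume (Ioo 0 (min d (R - ‖e‖))) = 0 := by
      refine measure_mono_null (t := {s | ¬ (s ∈ Ioi (0 : ℝ) →
        ENNReal.ofReal s * ∫⁻ θ in Ioc (-Real.pi) Real.pi, ρ (circ e s θ) ≠ ⊤)}) ?_ h1
      intro s hs hcon
      exact hcon hs.1 (hno s hs.1 (hs.2.trans_le (min_le_left _ _)) (hs.2.trans_le (min_le_right _ _)))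
    rw [Real.volume_Ioo, sub_zero, ENNReal.ofReal_eq_zero] at h2
    exact absurd (lt_min hd (sub_pos.2 hnorm)) (not_lt.2 h2)
  obtain ⟨θ, hθ, hray⟩ := exists_ray hρ hfin e
  obtain ⟨q, hq, hreach1⟩ := hcirc s hs0 hsd
  have hreach2 := hreach1.trans hρ (Reach.to_circ hρ hs0 hq (y := θ) ⟨hθ.1.le, hθ.2⟩)
  -- the ray meets the circle of radius `R`
  have hcont : ContinuousOn (fun r : ℝ => ‖circ e r θ‖) (Icc s (2 * R)) :=
    (((continuous_circ e).comp (Continuous.prodMk_left θ)).norm).continuousOn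
  have hlow : ‖circ e s θ‖ ≤ R := by
    have h1 := dist_circ_center e hs0.le θ
    rw [dist_eq_norm] at h1
    calc ‖circ e s θ‖ = ‖(circ e s θ - e) + e‖ := by rw [sub_add_cancel]
      _ ≤ ‖circ e s θ - e‖ + ‖e‖ := norm_add_le _ _
      _ ≤ R := by rw [h1]; linarith
  have hhigh : R ≤ ‖circ e (2 * R) θ‖ := by
    have h1 := dist_circ_center e (s := 2 * R) (by linarith) θ
    rw [dist_eq_norm] at h1
    have h2 : ‖circ e (2 * R) θ - e‖ ≤ ‖circ e (2 * R) θ‖ + ‖e‖ := norm_sub_le _ _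
    rw [h1] at h2
    linarith
  obtain ⟨r, hr1, hr2⟩ := intermediate_value_Icc (by linarith : s ≤ 2 * R) hcont
    (show R ∈ Icc ‖circ e s θ‖ ‖circ e (2 * R) θ‖ from ⟨hlow, hhigh⟩)
  have hreach3 := hreach2.trans hρ (Reach.radial hρ e θ hr1.1)
  obtain ⟨γ', a', b', hr', h0', h1', h2'⟩ := hreach3.curve hρ
  have hjoin : Joining E (Metric.sphere 0 R) γ' a' b' := by
    refine Or.inl ⟨by rw [h0']; exact he, ?_⟩
    rw [h1', mem_sphere_zero_iff_norm]
    exact hr2
  have h5 := htop γ' a' b' hr' hjoin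
  rw [h5, top_le_iff] at h2'
  exact (ENNReal.add_ne_top.2 ⟨ENNReal.add_ne_top.2 ⟨ENNReal.one_ne_top, hsfin⟩, hray s hs0 r⟩) h2'

/-- Gonchar's problem, for all rectifiable curves and all bounded Borel subsets of the axis, with
the zero part. -/
theorem gonchar (E : Set Plane) (R : ℝ) (hEm : MeasurableSet E)
    (hE : E ⊆ axis ∩ Metric.ball 0 R) :
    (0 < modulus (Joining E (Metric.sphere 0 R)) → modulus (Joining E (axis \ E)) = ⊤) ∧
    (modulus (Joining E (Metric.sphere 0 R)) = 0 → modulus (Joining E (axis \ E)) = 0) := by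
  have hEax : E ⊆ axis := fun x hx => (hE hx).1
  have hEball : E ⊆ Metric.ball 0 R := fun x hx => (hE hx).2
  constructor
  · intro hcap
    refine iInf_eq_top.2 fun ρ => iInf_eq_top.2 fun hρ => iInf_eq_top.2 fun hadm => ?_
    by_contra hfin
    have hR := radm_of_adm hρ hadm
    by_cases hn1 : volume (pt ⁻¹' E) = 0
    · have h0 := nonconst_zero hEax hn1 hρ hfin hR
      refine hcap.ne' (le_antisymm (le_trans (modulus_mono fun γ a b hr hg => ?_) h0.le) zero_le)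
      refine joining_nonconst ?_ hr hg
      rw [Set.disjoint_left]
      intro e he hs
      exact absurd (mem_sphere_zero_iff_norm.1 hs) (mem_ball_zero_iff.1 (hEball he)).ne
    · refine pos_false hEm hn1 ?_ hρ hfin hR
      intro h0
      have hsub : Ioi R ⊆ (pt ⁻¹' E)ᶜ := by
        intro x hx hmem
        have h1 := mem_ball_zero_iff.1 (hEball hmem)
        have h2 : |x| ≤ ‖pt x‖ := by
          have := PiLp.norm_apply_le (pt x) 0
          rwa [pt_zero, Real.norm_eq_abs] at this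
        exact absurd (lt_of_lt_of_le (lt_of_lt_of_le (show R < x from hx) (le_abs_self x)) h2)
          (not_lt.2 h1.le)
      have := measure_mono_null hsub h0
      rw [Real.volume_Ioi] at this
      exact ENNReal.top_ne_zero this
  · intro hcap
    exact (zero_or_top E hEm hEax).2 (Or.inl (nonconst_zero_of_cap hEball hcap))

end Pool.Agent.GoncharIns
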