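import Mathlib

/-!
# Curves, line integrals and the 2-modulus in the plane (textbook definitions)
-/

set_option autoImplicit false
open scoped ENNReal NNReal
open MeasureTheory Set

namespace Pool.Agent.GoncharIns

/-- The plane. -/
abbrev Plane := EuclideanSpace ℝ (Fin 2)

/-- The real axis in the plane. -/
def axis : Set Plane := {x | x 1 = 0}

/-- `γ : [a, b] → ℝ²` is a (closed) rectifiable curve: it is continuous on `[a, b]` and its length
(total variation) is finite. -/
def IsRectifiable (γ : ℝ → Plane) (a b : ℝ) : Prop :=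
  a ≤ b ∧ ContinuousOn γ (Icc a b) ∧ eVariationOn γ (Icc a b) ≠ ⊤

/-- The line integral `∫_γ ρ ds` along a rectifiable curve `γ : [a, b] → ℝ²`: the integral of `ρ`
over `[0, length γ]` along the arc length parametrisation of `γ`. -/
noncomputable def lineIntegral (ρ : Plane → ℝ≥0∞) (γ : ℝ → Plane) (a b : ℝ) : ℝ≥0∞ :=
  ∫⁻ s in Icc 0 (eVariationOn γ (Icc a b)).toReal, ρ (naturalParameterization γ (Icc a b) a s)

/-- The 2-modulus of a family `Γ` of curves: the infimum of `∫ ρ²` over all Borel functions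
`ρ : ℝ² → [0, ∞]` with `∫_γ ρ ds ≥ 1` for every rectifiable curve `γ` of the family. -/
noncomputable def modulus (Γ : (ℝ → Plane) → ℝ → ℝ → Prop) : ℝ≥0∞ :=
  ⨅ (ρ : Plane → ℝ≥0∞) (_ : Measurable ρ)
    (_ : ∀ (γ : ℝ → Plane) (a b : ℝ), IsRectifiable γ a b → Γ γ a b → 1 ≤ lineIntegral ρ γ a b),
    ∫⁻ x, ρ x ^ 2

/-- The curves which join `A` and `B`: one end point lies in `A`, the other one in `B`. -/
def Joining (A B : Set Plane) (γ : ℝ → Plane) (a b : ℝ) : Prop :=
  (γ a ∈ A ∧ γ b ∈ B) ∨ (γ a ∈ B ∧ γ b ∈ A)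

/-- The non constant curves with an end point in `A`. -/
def NonconstFrom (A : Set Plane) (γ : ℝ → Plane) (a b : ℝ) : Prop :=
  (γ a ∈ A ∨ γ b ∈ A) ∧ ∃ t ∈ Icc a b, γ t ≠ γ a

end Pool.Agent.GoncharIns
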