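import Pool.Agent.Lib.MP_df1243_an.Ins.Reach

set_option autoImplicit false
open scoped ENNReal NNReal MeasureTheory Topology
open MeasureTheory Set Filter

namespace Pool.Agent.GoncharIns

open Pool.Agent.GoncharArc

/-- Key estimate, angular form. -/
lemma disc_bound' (c : Plane) {δ : ℝ} (hδ : 0 < δ)
    {ρ : Plane → ℝ≥0∞} (hρ : Measurable ρ) {S : Set ℝ} (hS : S ⊆ Ioo 0 δ)
    (h : ∀ s ∈ S, 1 / 2 ≤ ENNReal.ofReal s * ∫⁻ θ in Ioc (-Real.pi) Real.pi, ρ (circ c s θ)) :
    volume S ≤ ENNReal.ofReal (8 * Real.pi * δ) * ∫⁻ x in Metric.ball c δ, ρ x ^ 2 := by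
  have hpi := Real.pi_pos
  set G : ℝ → ℝ≥0∞ := fun s => ENNReal.ofReal s * ∫⁻ θ in Ioc (-Real.pi) Real.pi, ρ (circ c s θ) ^ 2 with hG
  have hGm : Measurable G := measurable_angular c (hρ.pow_const 2)
  have h1 : ∫⁻ s in Ioo 0 δ, G s ≤ ∫⁻ x in Metric.ball c δ, ρ x ^ 2 := by
    rw [← lintegral_indicator Metric.isOpen_ball.measurableSet,
      polar c ((hρ.pow_const 2).indicator Metric.isOpen_ball.measurableSet)]
    calc ∫⁻ s in Ioo 0 δ, G s ≤ ∫⁻ s in Ioo 0 δ, ENNReal.ofReal s *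
          ∫⁻ θ in Ioc (-Real.pi) Real.pi, (Metric.ball c δ).indicator (fun x => ρ x ^ 2) (circ c s θ) := by
          refine setLIntegral_mono' measurableSet_Ioo fun s hs => ?_
          refine le_of_eq ?_
          simp only [hG]
          congr 1
          refine lintegral_congr fun θ => ?_
          rw [indicator_of_mem]
          rw [Metric.mem_ball, dist_circ_center c hs.1.le]
          exact hs.2
      _ ≤ _ := lintegral_mono_set Ioo_subset_Ioi_self
  have h2 : ∀ s ∈ S, ENNReal.ofReal (1 / (8 * Real.pi * δ)) ≤ G s := by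
    intro s hs
    have hs' := hS hs
    have hs0 : 0 < s := hs'.1
    refine le_trans (ENNReal.ofReal_le_ofReal ?_) (sq_ge c hs0 hρ (h s hs))
    have : s ≤ δ := hs'.2.le
    gcongr
  have h3 : ENNReal.ofReal (1 / (8 * Real.pi * δ)) * volume S ≤ ∫⁻ s in Ioo 0 δ, G s := by
    refine le_trans ?_ (mul_meas_ge_le_lintegral hGm (ENNReal.ofReal (1 / (8 * Real.pi * δ))))
    refine mul_le_mul_right ?_ _
    rw [Measure.restrict_apply (measurableSet_le measurable_const hGm)]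
    exact measure_mono fun s hs => ⟨h2 s hs, hS hs⟩
  calc volume S = ENNReal.ofReal (8 * Real.pi * δ) * (ENNReal.ofReal (1 / (8 * Real.pi * δ)) * volume S) := by
        rw [← mul_assoc, ← ENNReal.ofReal_mul (by positivity), mul_one_div_cancel (by positivity),
          ENNReal.ofReal_one, one_mul]
    _ ≤ _ := by
        gcongr
        exact h3.trans h1

/-- Admissibility in terms of `Reach`. -/
def RAdm (E : Set Plane) (ρ : Plane → ℝ≥0∞) : Prop :=
  ∀ p ∈ E, ∀ q ∈ axis \ E, ∀ c, Reach ρ p q c → 1 ≤ c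

lemma null_top {E : Set Plane} (hE : E ⊆ axis) (hnull : volume (pt ⁻¹' E) = 0)
    {ρ : Plane → ℝ≥0∞} (hρ : Measurable ρ) (hfin : ∫⁻ x, ρ x ^ 2 ≠ ⊤) (hadm : RAdm E ρ)
    {e p : Plane} {c : ℝ≥0∞} (he : e ∈ E) (hp : p ≠ e) (h : Reach ρ e p c) : c = ⊤ := by
  by_contra hc
  have hpi := Real.pi_pos
  have he1 : e 1 = 0 := hE he
  have hhalf : (1 / 2 : ℝ≥0∞) ≠ 0 := by simp
  obtain ⟨d, hd, hcirc⟩ := h.small hρ hc hp hhalf
  have hε : ENNReal.ofReal (1 / (8 * Real.pi)) ≠ 0 := by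
    rw [Ne, ENNReal.ofReal_eq_zero, not_le]; positivity
  obtain ⟨δ₁, hδ₁, hsmall⟩ := small_ball hfin e hε
  set δ := min d δ₁ with hδ
  have hδ0 : 0 < δ := lt_min hd hδ₁
  have hlt := hsmall δ hδ0 (min_le_right _ _)
  set S : Set ℝ := Ioo 0 δ \ {s | e 0 + s ∈ pt ⁻¹' E} with hS
  have hSvol : volume S = ENNReal.ofReal δ := by
    have h0 : volume {s | e 0 + s ∈ pt ⁻¹' E} = 0 := by
      have : {s | e 0 + s ∈ pt ⁻¹' E} = (fun s => e 0 + s) ⁻¹' (pt ⁻¹' E) := rfl
      rw [this, measure_preimage_add, hnull]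
    rw [hS, measure_sdiff_null h0, Real.volume_Ioo, sub_zero]
  have hb := disc_bound' e hδ0 hρ (S := S) sdiff_subset (by
    intro s hs
    have hs0 : 0 < s := hs.1.1
    have hs1 : s < d := hs.1.2.trans_le (min_le_left _ _)
    obtain ⟨q, hq, hreach⟩ := hcirc s hs0 hs1
    have h1 := hreach.trans hρ (Reach.to_circ hρ hs0 hq (y := 0) ⟨by linarith, hpi.le⟩)
    have h2 := hadm e he (circ e s 0) (by
      rw [circ_zero_angle he1]
      exact ⟨pt_one _, hs.2⟩) _ h1
    have h3 := tsub_le_iff_left.2 h2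
    have h4 : (1 : ℝ≥0∞) - 1 / 2 = 1 / 2 := by
      rw [one_div, ENNReal.one_sub_inv_two]
    rwa [h4] at h3)
  rw [hSvol] at hb
  have hcontra : ENNReal.ofReal (8 * Real.pi * δ) * ∫⁻ x in Metric.ball e δ, ρ x ^ 2 < ENNReal.ofReal δ := by
    calc ENNReal.ofReal (8 * Real.pi * δ) * ∫⁻ x in Metric.ball e δ, ρ x ^ 2
        < ENNReal.ofReal (8 * Real.pi * δ) * ENNReal.ofReal (1 / (8 * Real.pi)) := by
          refine (ENNReal.mul_lt_mul_iff_right ?_ ENNReal.ofReal_ne_top).2 hlt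
          rw [Ne, ENNReal.ofReal_eq_zero, not_le]; positivity
      _ = ENNReal.ofReal δ := by
          rw [← ENNReal.ofReal_mul (by positivity)]
          congr 1
          field_simp
  exact absurd hb (not_le.2 hcontra)

/-- Strips shrink to the axis. -/
lemma strip_tendsto {ρ : Plane → ℝ≥0∞} (hfin : ∫⁻ x, ρ x ^ 2 ≠ ⊤) (X : ℝ) :
    Tendsto (fun n : ℕ => ∫⁻ x in {x : Plane | |x 1| < X / ((n : ℝ) + 1)}, ρ x ^ 2) atTop (𝓝 0) := by
  set A : ℕ → Set Plane := fun n => {x | |x 1| < X / ((n : ℝ) + 1)} with hA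
  set ν : Measure Plane := (volume : Measure Plane).withDensity (fun x => ρ x ^ 2) with hν
  have hAo : ∀ n, IsOpen (A n) := fun n => by
    have : Continuous fun x : Plane => |x 1| := by fun_prop
    exact isOpen_lt this continuous_const
  have hνA : ∀ n, ν (A n) = ∫⁻ x in A n, ρ x ^ 2 := fun n => withDensity_apply _ (hAo n).measurableSet
  by_cases hX : X ≤ 0
  · have hempty : ∀ n, A n = ∅ := by
      intro n
      ext x
      simp only [hA, mem_ofPred_eq, mem_empty_iff_false, iff_false, not_lt]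
      refine le_trans ?_ (abs_nonneg _)
      exact div_nonpos_of_nonpos_of_nonneg hX (by positivity)
    have : (fun n : ℕ => ∫⁻ x in A n, ρ x ^ 2) = fun _ => 0 := by
      funext n
      rw [hempty n]
      simp
    rw [this]
    exact tendsto_const_nhds
  push Not at hX
  have hanti : Antitone A := by
    intro m n hmn x hx
    have : (m : ℝ) ≤ n := by exact_mod_cast hmn
    refine lt_of_lt_of_le (show |x 1| < X / ((n : ℝ) + 1) from hx) ?_
    gcongr
  have hint : ⋂ n, A n ⊆ {x : Plane | x 1 = 0} := by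
    intro x hx
    rw [mem_iInter] at hx
    have hlim : Tendsto (fun n : ℕ => X / ((n : ℝ) + 1)) atTop (𝓝 0) := by
      have h := (tendsto_one_div_add_atTop_nhds_zero_nat (𝕜 := ℝ)).const_mul X
      rw [mul_zero] at h
      refine h.congr fun n => ?_
      rw [mul_one_div]
    have : |x 1| ≤ 0 := ge_of_tendsto' hlim fun n => (show |x 1| < X / ((n : ℝ) + 1) from hx n).le
    exact abs_nonpos_iff.1 this
  have haxis : (volume : Measure Plane) {x | x 1 = 0} = 0 := by
    have hm : MeasurableSet {p : Fin 2 → ℝ | p 1 = 0} := (measurable_pi_apply 1) (measurableSet_singleton 0)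
    have h1 := (PiLp.volume_preserving_ofLp (Fin 2)).measure_preimage hm.nullMeasurableSet
    have h2 : (volume : Measure (Fin 2 → ℝ)) {p | p 1 = 0} = 0 := by
      have := Measure.pi_hyperplane (fun _ : Fin 2 => (volume : Measure ℝ)) 1 0
      exact this
    rw [h2] at h1
    exact h1
  have hlim := tendsto_measure_iInter_atTop (μ := ν) (s := A) (fun n => (hAo n).measurableSet.nullMeasurableSet)
    hanti ⟨0, by
      rw [hνA]
      exact ((setLIntegral_le_lintegral _ _).trans_lt (lt_top_iff_ne_top.2 hfin)).ne⟩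
  have hzero : ν (⋂ n, A n) = 0 :=
    withDensity_absolutelyContinuous _ _ (measure_mono_null hint haxis)
  rw [hzero] at hlim
  refine hlim.congr fun n => ?_
  simp only [Function.comp]
  exact hνA n

/-- the measure of the set of centres of the intervals of half length `s` with exactly one end in `K`. -/
noncomputable def u (K : Set ℝ) (s : ℝ) : ℝ≥0∞ := volume {c | ¬ (c - s ∈ K ↔ c + s ∈ K)}

lemma measurableSet_pair {K : Set ℝ} (hK : MeasurableSet K) :
    MeasurableSet {p : ℝ × ℝ | ¬ (p.1 - p.2 ∈ K ↔ p.1 + p.2 ∈ K)} := by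
  have h1 : MeasurableSet {p : ℝ × ℝ | p.1 - p.2 ∈ K} := (measurable_fst.sub measurable_snd) hK
  have h2 : MeasurableSet {p : ℝ × ℝ | p.1 + p.2 ∈ K} := (measurable_fst.add measurable_snd) hK
  have e : {p : ℝ × ℝ | ¬ (p.1 - p.2 ∈ K ↔ p.1 + p.2 ∈ K)} =
      ({p : ℝ × ℝ | p.1 - p.2 ∈ K} \ {p : ℝ × ℝ | p.1 + p.2 ∈ K}) ∪
      ({p : ℝ × ℝ | p.1 + p.2 ∈ K} \ {p : ℝ × ℝ | p.1 - p.2 ∈ K}) := by
    ext p
    simp only [mem_ofPred_eq, mem_union, Set.mem_sdiff]
    tauto
  rw [e]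
  exact (h1.diff h2).union (h2.diff h1)

lemma measurable_u {K : Set ℝ} (hK : MeasurableSet K) : Measurable (u K) := by
  have := measurable_measure_prodMk_right (μ := (volume : Measure ℝ)) (measurableSet_pair hK)
  exact this

lemma u_eq (K : Set ℝ) (s : ℝ) : u K s = volume {x | ¬ (x ∈ K ↔ x + 2 * s ∈ K)} := by
  have : {c | ¬ (c - s ∈ K ↔ c + s ∈ K)} = (fun c => c + (-s)) ⁻¹' {x | ¬ (x ∈ K ↔ x + 2 * s ∈ K)} := by
    ext c
    simp only [mem_preimage, mem_ofPred_eq]
    have e1 : c + -s + 2 * s = c + s := by ring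
    rw [e1, ← sub_eq_add_neg]
  rw [u, this, measure_preimage_add_right]

lemma u_nat_mul_le (K : Set ℝ) (s : ℝ) (n : ℕ) : u K (n * s) ≤ n * u K s := by
  induction n with
  | zero =>
    rw [u_eq]
    simp
  | succ n ih =>
    have hsub : {x | ¬ (x ∈ K ↔ x + 2 * (((n + 1 : ℕ) : ℝ) * s) ∈ K)} ⊆
        {x | ¬ (x ∈ K ↔ x + 2 * ((n : ℝ) * s) ∈ K)} ∪
        (fun x => x + 2 * ((n : ℝ) * s)) ⁻¹' {x | ¬ (x ∈ K ↔ x + 2 * s ∈ K)} := by
      intro x hx
      by_cases h : (x ∈ K ↔ x + 2 * ((n : ℝ) * s) ∈ K)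
      · right
        show ¬ (x + 2 * ((n : ℝ) * s) ∈ K ↔ x + 2 * ((n : ℝ) * s) + 2 * s ∈ K)
        have e : x + 2 * ((n : ℝ) * s) + 2 * s = x + 2 * (((n + 1 : ℕ) : ℝ) * s) := by push_cast; ring
        rw [e, ← h]
        exact hx
      · left; exact h
    calc u K (((n + 1 : ℕ) : ℝ) * s) ≤ volume ({x | ¬ (x ∈ K ↔ x + 2 * ((n : ℝ) * s) ∈ K)} ∪
          (fun x => x + 2 * ((n : ℝ) * s)) ⁻¹' {x | ¬ (x ∈ K ↔ x + 2 * s ∈ K)}) := by
          rw [u_eq]; exact measure_mono hsub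
      _ ≤ u K (n * s) + u K s := by
          refine (measure_union_le _ _).trans ?_
          rw [measure_preimage_add_right, u_eq K (n * s), u_eq K s]
      _ ≤ n * u K s + u K s := by gcongr
      _ = ((n + 1 : ℕ) : ℝ≥0∞) * u K s := by push_cast; ring

lemma phi_scale {K : Set ℝ} (hK : MeasurableSet K) {δ : ℝ} {n : ℕ} (hn : 0 < n) :
    ∫⁻ s in Ioo (n * δ / 2) (n * δ), u K s ≤ (n : ℝ≥0∞) ^ 2 * ∫⁻ s in Ioo (δ / 2) δ, u K s := by
  have hn' : (0 : ℝ) < n := by exact_mod_cast hn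
  have hlip : LipschitzWith (n : ℝ≥0) fun t : ℝ => (n : ℝ) * t := by
    refine LipschitzWith.of_dist_le_mul fun x y => ?_
    rw [Real.dist_eq, Real.dist_eq, ← mul_sub, abs_mul, abs_of_pos hn', NNReal.coe_natCast]
  have him : (fun t : ℝ => (n : ℝ) * t) '' Ioo (δ / 2) δ = Ioo (n * δ / 2) (n * δ) := by
    rw [image_mul_left_Ioo hn', mul_div_assoc]
  rw [← him]
  refine (push_le hlip _ (measurable_u hK)).trans ?_
  have e1 : (((n : ℝ≥0) : ℝ≥0∞)) = (n : ℝ≥0∞) := by norm_cast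
  rw [e1, pow_two, mul_assoc]
  refine mul_le_mul_right ?_ _
  rw [← lintegral_const_mul _ (measurable_u hK)]
  exact lintegral_mono fun s => u_nat_mul_le K s n

/-- For a set which is neither null nor co-null, `u` does not vanish. -/
lemma exists_phi_pos {K : Set ℝ} (hK : MeasurableSet K) (h1 : volume K ≠ 0) (h2 : volume Kᶜ ≠ 0) :
    ∃ X : ℝ, 0 < X ∧ ∫⁻ s in Ioo (X / 2) X, u K s ≠ 0 := by
  by_contra hcon
  push Not at hcon
  -- `u` vanishes a.e. on the positive axis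
  have hpos : ∫⁻ s in Ioi (0 : ℝ), u K s = 0 := by
    have hcover : Ioi (0 : ℝ) ⊆ ⋃ k : ℤ, Icc ((2 : ℝ) ^ k / 2) ((2 : ℝ) ^ k) := by
      intro x hx
      obtain ⟨k, hk1, hk2⟩ := exists_mem_Ico_zpow (show (0 : ℝ) < x from hx) (one_lt_two (α := ℝ))
      refine mem_iUnion.2 ⟨k + 1, ?_, hk2.le⟩
      rw [zpow_add_one₀ two_ne_zero, mul_div_assoc, div_self two_ne_zero, mul_one]
      exact hk1
    refine le_antisymm ?_ zero_le
    refine (lintegral_mono_set hcover).trans ((lintegral_iUnion_le _ _).trans ?_)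
    refine le_of_eq (ENNReal.tsum_eq_zero.2 fun k => ?_)
    have h := hcon ((2 : ℝ) ^ k) (by positivity)
    rw [setLIntegral_congr Ioo_ae_eq_Icc] at h
    exact h
  have hneg : ∫⁻ s in Iio (0 : ℝ), u K s = 0 := by
    have heven : ∀ s, u K (-s) = u K s := by
      intro s
      unfold u
      congr 1
      ext c
      simp only [mem_ofPred_eq, sub_neg_eq_add]
      rw [← sub_eq_add_neg]
      tauto
    have hlip : LipschitzWith 1 fun t : ℝ => -t := by
      refine LipschitzWith.of_dist_le_mul fun x y => ?_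
      rw [Real.dist_eq, Real.dist_eq, NNReal.coe_one, one_mul, ← abs_neg]
      exact le_of_eq (congrArg abs (by ring))
    have him : (fun t : ℝ => -t) '' Ioi 0 = Iio 0 := by simp
    refine le_antisymm ?_ zero_le
    rw [← him]
    refine (push_le hlip _ (measurable_u hK)).trans ?_
    rw [ENNReal.coe_one, one_mul]
    simp_rw [heven]
    exact hpos.le
  have htot : ∫⁻ s, u K s = 0 := by
    have hm := measurable_u hK
    have : (univ : Set ℝ) ⊆ Iio 0 ∪ ({0} ∪ Ioi 0) := by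
      intro x _
      rcases lt_trichotomy x 0 with h | h | h
      · exact Or.inl h
      · exact Or.inr (Or.inl h)
      · exact Or.inr (Or.inr h)
    refine le_antisymm ?_ zero_le
    rw [← setLIntegral_univ]
    refine (lintegral_mono_set this).trans ((lintegral_union_le _ _ _).trans ?_)
    rw [hneg, zero_add]
    refine (lintegral_union_le _ _ _).trans ?_
    rw [hpos, add_zero]
    simp
  -- Tonelli
  set Z : Set (ℝ × ℝ) := {p | p.1 ∈ K ∧ p.1 + 2 * p.2 ∉ K} with hZ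
  have hZm : MeasurableSet Z := by
    refine MeasurableSet.inter (measurable_fst hK) ?_
    exact (measurable_fst.add (measurable_snd.const_mul 2)) hK.compl
  have hZ0 : ((volume : Measure ℝ).prod volume) Z = 0 := by
    rw [Measure.prod_apply_symm hZm]
    refine le_antisymm (le_trans (lintegral_mono fun s => ?_) htot.le) zero_le
    rw [u_eq]
    refine measure_mono ?_
    rintro x ⟨hx1, hx2⟩
    simp only [mem_ofPred_eq]
    tauto
  rw [Measure.prod_apply hZm, lintegral_eq_zero_iff (measurable_measure_prodMk_left hZm)] at hZ0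
  have hex : ∃ x ∈ K, volume (Prod.mk x ⁻¹' Z) = 0 := by
    by_contra hno
    push Not at hno
    refine h1 (measure_mono_null (t := {x | ¬ volume (Prod.mk x ⁻¹' Z) = 0}) ?_ ?_)
    · intro x hx
      exact hno x hx
    · exact hZ0
  obtain ⟨x, hx, hx0⟩ := hex
  have hset : Prod.mk x ⁻¹' Z = (fun s : ℝ => 2 * s) ⁻¹' ((fun y => x + y) ⁻¹' Kᶜ) := by
    ext s
    simp only [hZ, mem_preimage, mem_ofPred_eq, mem_compl_iff]
    tauto
  rw [hset, Real.volume_preimage_mul_left two_ne_zero, measure_preimage_add] at hx0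
  rcases mul_eq_zero.1 hx0 with h | h
  · rw [ENNReal.ofReal_eq_zero] at h
    norm_num at h
  · exact h2 h

lemma RAdm.symm_bound {E : Set Plane} {ρ : Plane → ℝ≥0∞} (hρ : Measurable ρ) (hadm : RAdm E ρ)
    {c s : ℝ} (hs : 0 < s) (h : ¬ (pt (c - s) ∈ E ↔ pt (c + s) ∈ E)) :
    1 ≤ ENNReal.ofReal s * ∫⁻ θ in Ioc (-Real.pi) Real.pi, ρ (circ (pt c) s θ) := by
  have hpi := Real.pi_pos
  have harc := Reach.arc hρ (pt c) hs (x := Real.pi) (y := 0) ⟨by linarith, le_rfl⟩ ⟨by linarith, hpi.le⟩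
  rw [circ_pt_pi, circ_zero_angle (pt_one c), pt_zero] at harc
  by_cases h1 : pt (c - s) ∈ E
  · have h2 : pt (c + s) ∉ E := fun h2 => h ⟨fun _ => h2, fun _ => h1⟩
    exact hadm _ h1 _ ⟨pt_one _, h2⟩ _ harc
  · have h2 : pt (c + s) ∈ E := by
      by_contra h2
      exact h ⟨fun h3 => absurd h3 h1, fun h3 => absurd h3 h2⟩
    exact hadm _ h2 _ ⟨pt_one _, h1⟩ _ (harc.symm hρ)

lemma pos_false {E : Set Plane} (hEm : MeasurableSet E) (hpos : volume (pt ⁻¹' E) ≠ 0)
    (hneg : volume (pt ⁻¹' E)ᶜ ≠ 0) {ρ : Plane → ℝ≥0∞} (hρ : Measurable ρ)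
    (hfin : ∫⁻ x, ρ x ^ 2 ≠ ⊤) (hadm : RAdm E ρ) : False := by
  have hpi := Real.pi_pos
  set K : Set ℝ := pt ⁻¹' E with hK
  have hKm : MeasurableSet K := continuous_pt.measurable hEm
  obtain ⟨X, hX, hphi⟩ := exists_phi_pos hKm hpos hneg
  -- upper bound
  have hup : ∀ δ : ℝ, 0 < δ → ∫⁻ s in Ioo (δ / 2) δ, u K s ≤
      ENNReal.ofReal (16 * Real.pi * δ ^ 2) * ∫⁻ x in {x : Plane | |x 1| < δ}, ρ x ^ 2 := by
    intro δ hδ
    set I := ∫⁻ x in {x : Plane | |x 1| < δ}, ρ x ^ 2 with hI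
    set W : Set (ℝ × ℝ) := {p | p.2 ∈ Ioo (δ / 2) δ} ∩ {p | ¬ (p.1 - p.2 ∈ K ↔ p.1 + p.2 ∈ K)} with hW
    have hWm : MeasurableSet W := (measurable_snd measurableSet_Ioo).inter (measurableSet_pair hKm)
    calc ∫⁻ s in Ioo (δ / 2) δ, u K s = ∫⁻ s, (Ioo (δ / 2) δ).indicator (u K) s := by
          rw [lintegral_indicator measurableSet_Ioo]
      _ ≤ ∫⁻ s, volume ((fun x => (x, s)) ⁻¹' W) := by
          refine lintegral_mono fun s => ?_
          by_cases hs : s ∈ Ioo (δ / 2) δ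
          · rw [indicator_of_mem hs]
            refine measure_mono fun c hc => ⟨hs, hc⟩
          · rw [indicator_of_notMem hs]
            exact zero_le
      _ = ((volume : Measure ℝ).prod volume) W := (Measure.prod_apply_symm hWm).symm
      _ = ∫⁻ c : ℝ, volume (Prod.mk c ⁻¹' W) := Measure.prod_apply hWm
      _ ≤ ∫⁻ c : ℝ, ENNReal.ofReal (8 * Real.pi * δ) * ∫⁻ x in Metric.ball (pt c) δ, ρ x ^ 2 := by
          refine lintegral_mono fun c => ?_
          refine disc_bound' (pt c) hδ hρ (S := Prod.mk c ⁻¹' W) ?_ ?_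
          · intro s hs
            exact ⟨(by linarith [hs.1.1] : (0:ℝ) < s), hs.1.2⟩
          · intro s hs
            have hs0 : (0:ℝ) < s := by linarith [hs.1.1]
            refine le_trans ?_ (hadm.symm_bound hρ hs0 hs.2)
            rw [one_div]
            exact ENNReal.inv_le_one.2 (by norm_num)
      _ = ENNReal.ofReal (8 * Real.pi * δ) * ∫⁻ c : ℝ, ∫⁻ x in Metric.ball (pt c) δ, ρ x ^ 2 := by
          rw [lintegral_const_mul' _ _ ENNReal.ofReal_ne_top]
      _ ≤ ENNReal.ofReal (8 * Real.pi * δ) * (ENNReal.ofReal (2 * δ) * I) := by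
          gcongr
          exact strip_bound hρ hδ
      _ = ENNReal.ofReal (16 * Real.pi * δ ^ 2) * I := by
          rw [← mul_assoc, ← ENNReal.ofReal_mul (by positivity)]
          congr 2
          ring
  -- scaling
  have hbound : ∀ n : ℕ, ∫⁻ s in Ioo (X / 2) X, u K s ≤ ENNReal.ofReal (16 * Real.pi * X ^ 2) *
      ∫⁻ x in {x : Plane | |x 1| < X / ((n : ℝ) + 1)}, ρ x ^ 2 := by
    intro n
    have hn : (0 : ℝ) < (n : ℝ) + 1 := by positivity
    have h1 := phi_scale hKm (δ := X / ((n : ℝ) + 1)) (n := n + 1) (Nat.succ_pos n)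
    have e1 : ((n + 1 : ℕ) : ℝ) * (X / ((n : ℝ) + 1)) = X := by
      push_cast; field_simp
    rw [e1] at h1
    refine h1.trans ?_
    have h2 := hup (X / ((n : ℝ) + 1)) (by positivity)
    calc ((n + 1 : ℕ) : ℝ≥0∞) ^ 2 * ∫⁻ s in Ioo (X / ((n : ℝ) + 1) / 2) (X / ((n : ℝ) + 1)), u K s
        ≤ ((n + 1 : ℕ) : ℝ≥0∞) ^ 2 * (ENNReal.ofReal (16 * Real.pi * (X / ((n : ℝ) + 1)) ^ 2) *
            ∫⁻ x in {x : Plane | |x 1| < X / ((n : ℝ) + 1)}, ρ x ^ 2) := by gcongr
      _ = ENNReal.ofReal (16 * Real.pi * X ^ 2) *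
            ∫⁻ x in {x : Plane | |x 1| < X / ((n : ℝ) + 1)}, ρ x ^ 2 := by
          rw [← mul_assoc]
          congr 1
          have e2 : ((n + 1 : ℕ) : ℝ≥0∞) = ENNReal.ofReal ((n : ℝ) + 1) := by
            rw [← Nat.cast_add_one, ENNReal.ofReal_natCast]
          rw [e2, ← ENNReal.ofReal_pow hn.le, ← ENNReal.ofReal_mul (by positivity)]
          congr 1
          field_simp
  have hlim := ENNReal.Tendsto.const_mul (strip_tendsto hfin X)
    (a := ENNReal.ofReal (16 * Real.pi * X ^ 2)) (Or.inr ENNReal.ofReal_ne_top)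
  rw [mul_zero] at hlim
  exact hphi (le_antisymm (ge_of_tendsto' hlim hbound) zero_le)

end Pool.Agent.GoncharIns
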