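import Pool.Agent.Lib.MP_df1243_an.Ins.Defs
import Pool.Agent.Lib.MP_df1243_an.GoncharArc

set_option autoImplicit false
open scoped ENNReal NNReal MeasureTheory Topology
open MeasureTheory Set Filter

namespace Pool.Agent.GoncharIns

open Pool.Agent.GoncharArc

/-- Lipschitz change of variables, an inequality. -/
lemma push_le {v : ℝ → ℝ} {K : ℝ≥0} (hv : LipschitzWith K v) (S : Set ℝ) {f : ℝ → ℝ≥0∞}
    (hf : Measurable f) : ∫⁻ y in v '' S, f y ≤ K * ∫⁻ t in S, f (v t) := by
  have key : (volume : Measure ℝ).restrict (v '' S) ≤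
      (K : ℝ≥0∞) • Measure.map v (volume.restrict S) := by
    refine Measure.le_iff.2 fun A hA => ?_
    rw [Measure.restrict_apply hA, Measure.smul_apply, Measure.map_apply hv.continuous.measurable hA,
      Measure.restrict_apply (hv.continuous.measurable hA)]
    have e : A ∩ v '' S = v '' (v ⁻¹' A ∩ S) := by
      rw [inter_comm (v ⁻¹' A) S, image_inter_preimage, inter_comm]
    rw [e]
    have := hv.hausdorffMeasure_image_le zero_le_one (v ⁻¹' A ∩ S)
    rw [hausdorffMeasure_real, ENNReal.rpow_one] at this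
    exact this
  calc ∫⁻ y in v '' S, f y ≤ ∫⁻ y, f y ∂((K : ℝ≥0∞) • Measure.map v (volume.restrict S)) :=
        lintegral_mono' key le_rfl
    _ = K * ∫⁻ t in S, f (v t) := by
        rw [lintegral_smul_measure, lintegral_map hf hv.continuous.measurable, smul_eq_mul]

section curve

variable {γ : ℝ → Plane} {a b : ℝ}

lemma lbv (h : eVariationOn γ (Icc a b) ≠ ⊤) : LocallyBoundedVariationOn γ (Icc a b) :=
  BoundedVariationOn.locallyBoundedVariationOn h

lemma continuousOn_variation (hc : ContinuousOn γ (Icc a b)) (h : eVariationOn γ (Icc a b) ≠ ⊤)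
    (hab : a ≤ b) : ContinuousOn (variationOnFromTo γ (Icc a b) a) (Icc a b) := by
  intro x hx
  have ha : a ∈ Icc a b := ⟨le_rfl, hab⟩
  have h1 : ContinuousWithinAt (variationOnFromTo γ (Icc a b) a) (Icc a b ∩ Iio x) x := by
    have := variationOnFromTo.tendsto_left ha hx (lbv h) (l := γ x)
      ((hc x hx).mono inter_subset_left)
    rwa [dist_self, sub_zero] at this
  have h2 : ContinuousWithinAt (variationOnFromTo γ (Icc a b) a) (Icc a b ∩ Ioi x) x := by
    have := variationOnFromTo.tendsto_right ha hx (lbv h) (l := γ x)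
      ((hc x hx).mono inter_subset_left)
    rwa [dist_self, add_zero] at this
  have h3 := ((h1.union (continuousWithinAt_singleton (x := x))).union h2)
  refine h3.mono ?_
  intro y hy
  rcases lt_trichotomy y x with h | h | h
  · exact Or.inl (Or.inl ⟨hy, h⟩)
  · exact Or.inl (Or.inr h)
  · exact Or.inr ⟨hy, h⟩

lemma variation_right (hab : a ≤ b) :
    variationOnFromTo γ (Icc a b) a b = (eVariationOn γ (Icc a b)).toReal := by
  rw [variationOnFromTo.eq_of_le _ _ hab, inter_self]

lemma image_variation (hr : IsRectifiable γ a b) :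
    variationOnFromTo γ (Icc a b) a '' Icc a b = Icc 0 (eVariationOn γ (Icc a b)).toReal := by
  obtain ⟨hab, hc, h⟩ := hr
  have ha : a ∈ Icc a b := ⟨le_rfl, hab⟩
  have hb : b ∈ Icc a b := ⟨hab, le_rfl⟩
  have hmono := variationOnFromTo.monotoneOn (lbv h) ha
  apply Subset.antisymm
  · rintro _ ⟨x, hx, rfl⟩
    constructor
    · have := hmono ha hx hx.1
      rwa [variationOnFromTo.self] at this
    · have := hmono hx hb hx.2
      rwa [variation_right hab] at this
  · have := intermediate_value_Icc hab (continuousOn_variation hc h hab)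
    rwa [variationOnFromTo.self, variation_right hab] at this

lemma natural_lipschitz (hr : IsRectifiable γ a b) :
    LipschitzOnWith 1 (naturalParameterization γ (Icc a b) a)
      (Icc 0 (eVariationOn γ (Icc a b)).toReal) := by
  have ha : a ∈ Icc a b := ⟨le_rfl, hr.1⟩
  have hu := has_unit_speed_naturalParameterization γ (lbv hr.2.2) ha
  rw [image_variation hr] at hu
  have key : ∀ x ∈ Icc 0 (eVariationOn γ (Icc a b)).toReal,
      ∀ y ∈ Icc 0 (eVariationOn γ (Icc a b)).toReal, x ≤ y →
      edist (naturalParameterization γ (Icc a b) a x) (naturalParameterization γ (Icc a b) a y) ≤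
        edist x y := by
    intro x hx y hy hxy
    have h1 := hu hx hy
    have h2 := eVariationOn.edist_le (naturalParameterization γ (Icc a b) a)
      (s := Icc 0 (eVariationOn γ (Icc a b)).toReal ∩ Icc x y) (x := x) (y := y)
      ⟨hx, le_rfl, hxy⟩ ⟨hy, hxy, le_rfl⟩
    rw [h1] at h2
    refine h2.trans (le_of_eq ?_)
    rw [edist_comm, edist_dist, Real.dist_eq, abs_of_nonneg (by linarith), NNReal.coe_one, one_mul]
  intro x hx y hy
  rw [ENNReal.coe_one, one_mul]
  rcases le_total x y with h | h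
  · exact key x hx y hy h
  · rw [edist_comm, edist_comm x y]
    exact key y hy x hx h

lemma natural_apply (hr : IsRectifiable γ a b) {t : ℝ} (ht : t ∈ Icc a b) :
    naturalParameterization γ (Icc a b) a (variationOnFromTo γ (Icc a b) a t) = γ t := by
  have := edist_naturalParameterization_eq_zero (lbv hr.2.2) (a := a) ⟨le_rfl, hr.1⟩ ht
  exact edist_eq_zero.1 this

end curve

/-- The line integral along a Lipschitz curve. -/
lemma lineIntegral_le {β : ℝ → Plane} {a b : ℝ} (hab : a ≤ b) {K : ℝ≥0} (hβ : LipschitzWith K β)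
    {ρ : Plane → ℝ≥0∞} (hρ : Measurable ρ) :
    IsRectifiable β a b ∧ lineIntegral ρ β a b ≤ K * ∫⁻ t in Icc a b, ρ (β t) := by
  have hvar : ∀ x ∈ Icc a b, ∀ y ∈ Icc a b, x ≤ y →
      eVariationOn β (Icc a b ∩ Icc x y) ≤ K * ENNReal.ofReal (y - x) := by
    intro x hx y hy hxy
    have h1 := (hβ.lipschitzOnWith (s := univ)).comp_eVariationOn_le (g := (id : ℝ → ℝ))
      (s := Icc a b ∩ Icc x y) (mapsTo_univ _ _)
    rw [Function.comp_id] at h1
    refine h1.trans ?_
    gcongr
    refine (eVariationOn.mono _ inter_subset_right).trans ?_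
    rw [eVariationOn_id_Icc]
  have hfin : eVariationOn β (Icc a b) ≠ ⊤ := by
    have := hvar a ⟨le_rfl, hab⟩ b ⟨hab, le_rfl⟩ hab
    rw [inter_self] at this
    exact (this.trans_lt (ENNReal.mul_lt_top ENNReal.coe_lt_top ENNReal.ofReal_lt_top)).ne
  have hr : IsRectifiable β a b := ⟨hab, hβ.continuous.continuousOn, hfin⟩
  refine ⟨hr, ?_⟩
  have ha : a ∈ Icc a b := ⟨le_rfl, hab⟩
  set ℓ := (eVariationOn β (Icc a b)).toReal with hℓ
  have hℓ0 : 0 ≤ ℓ := ENNReal.toReal_nonneg
  set v := variationOnFromTo β (Icc a b) a with hv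
  set N := naturalParameterization β (Icc a b) a with hN
  -- the extended variation function
  set V : ℝ → ℝ := fun x => v (projIcc a b hab x) with hV
  have hVlip : LipschitzWith K V := by
    have key : ∀ x y : ℝ, x ≤ y → dist (V x) (V y) ≤ K * dist x y := by
      intro x y hxy
      have hp : (projIcc a b hab x : ℝ) ≤ projIcc a b hab y := monotone_projIcc hab hxy
      have hx' : (projIcc a b hab x : ℝ) ∈ Icc a b := (projIcc a b hab x).2
      have hy' : (projIcc a b hab y : ℝ) ∈ Icc a b := (projIcc a b hab y).2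
      have h1 : V y - V x = variationOnFromTo β (Icc a b) (projIcc a b hab x) (projIcc a b hab y) := by
        simp only [hV, hv]
        rw [variationOnFromTo.sub_right (lbv hfin) ha hy' hx']
      have h2 : V y - V x ≤ K * ((projIcc a b hab y : ℝ) - projIcc a b hab x) := by
        rw [h1, variationOnFromTo.eq_of_le _ _ hp]
        have h3 := hvar _ hx' _ hy' hp
        have h4 := ENNReal.toReal_mono
          (ENNReal.mul_lt_top ENNReal.coe_lt_top ENNReal.ofReal_lt_top).ne h3
        rwa [ENNReal.toReal_mul, ENNReal.toReal_ofReal (by linarith), ENNReal.coe_toReal] at h4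
      have h5 : 0 ≤ V y - V x := by
        rw [h1]; exact variationOnFromTo.nonneg_of_le _ _ hp
      have h6 : (projIcc a b hab y : ℝ) - projIcc a b hab x ≤ dist x y := by
        have h7 := (LipschitzWith.projIcc hab).dist_le_mul x y
        rw [NNReal.coe_one, one_mul, Subtype.dist_eq, Real.dist_eq, abs_sub_comm] at h7
        exact (le_abs_self _).trans h7
      rw [dist_comm (V x), Real.dist_eq, abs_of_nonneg h5]
      exact h2.trans (by gcongr)
    refine LipschitzWith.of_dist_le_mul fun x y => ?_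
    rcases le_total x y with h | h
    · exact key x y h
    · rw [dist_comm, dist_comm x y]; exact key y x h
  have hVv : ∀ t ∈ Icc a b, V t = v t := by
    intro t ht
    simp only [hV]
    rw [projIcc_of_mem hab ht]
  have hVim : V '' Icc a b = Icc 0 ℓ := by
    rw [← image_variation hr]
    exact image_congr hVv
  have hNlip := natural_lipschitz hr
  have hNc : Continuous fun y : ℝ => N (projIcc 0 ℓ hℓ0 y) := by
    have h1 : ContinuousOn N (Icc 0 ℓ) := hNlip.continuousOn
    exact (continuousOn_iff_continuous_domRestrict.1 h1).comp continuous_projIcc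
  have hf : Measurable fun y : ℝ => ρ (N (projIcc 0 ℓ hℓ0 y)) := hρ.comp hNc.measurable
  calc lineIntegral ρ β a b = ∫⁻ y in Icc 0 ℓ, ρ (N (projIcc 0 ℓ hℓ0 y)) := by
        refine setLIntegral_congr_fun measurableSet_Icc fun y hy => ?_
        rw [projIcc_of_mem hℓ0 hy]
    _ = ∫⁻ y in V '' Icc a b, ρ (N (projIcc 0 ℓ hℓ0 y)) := by rw [hVim]
    _ ≤ K * ∫⁻ t in Icc a b, ρ (N (projIcc 0 ℓ hℓ0 (V t))) := push_le hVlip _ hf
    _ = K * ∫⁻ t in Icc a b, ρ (β t) := by
        congr 1
        refine setLIntegral_congr_fun measurableSet_Icc fun t ht => ?_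
        have hVt : V t ∈ Icc 0 ℓ := by rw [← hVim]; exact ⟨t, ht, rfl⟩
        rw [projIcc_of_mem hℓ0 hVt]
        show ρ (N (V t)) = ρ (β t)
        rw [hVv t ht]
        exact congrArg ρ (natural_apply hr ht)

/-- `Reach ρ p q c`: there is a 1-Lipschitz path from `p` to `q` along which `ρ` has integral at
most `c`. -/
def Reach (ρ : Plane → ℝ≥0∞) (p q : Plane) (c : ℝ≥0∞) : Prop :=
  ∃ L : ℝ, 0 ≤ L ∧ ∃ g : ℝ → Plane, LipschitzWith 1 g ∧ g 0 = p ∧ g L = q ∧
    ∫⁻ t in Icc 0 L, ρ (g t) ≤ c

lemma Reach.mono {ρ : Plane → ℝ≥0∞} {p q : Plane} {c c' : ℝ≥0∞} (h : Reach ρ p q c)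
    (hc : c ≤ c') : Reach ρ p q c' := by
  obtain ⟨L, hL, g, hg, h0, h1, h2⟩ := h
  exact ⟨L, hL, g, hg, h0, h1, h2.trans hc⟩

lemma Reach.curve {ρ : Plane → ℝ≥0∞} (hρ : Measurable ρ) {p q : Plane} {c : ℝ≥0∞}
    (h : Reach ρ p q c) : ∃ (γ : ℝ → Plane) (a b : ℝ), IsRectifiable γ a b ∧ γ a = p ∧ γ b = q ∧
      lineIntegral ρ γ a b ≤ c := by
  obtain ⟨L, hL, g, hg, h0, h1, h2⟩ := h
  obtain ⟨hr, hle⟩ := lineIntegral_le hL hg hρ
  refine ⟨g, 0, L, hr, h0, h1, hle.trans ?_⟩
  rw [ENNReal.coe_one, one_mul]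
  exact h2

lemma Reach.symm {ρ : Plane → ℝ≥0∞} (hρ : Measurable ρ) {p q : Plane} {c : ℝ≥0∞}
    (h : Reach ρ p q c) : Reach ρ q p c := by
  obtain ⟨L, hL, g, hg, h0, h1, h2⟩ := h
  have hr : LipschitzWith 1 fun t : ℝ => L - t := by
    refine LipschitzWith.of_dist_le_mul fun x y => ?_
    rw [Real.dist_eq, Real.dist_eq, NNReal.coe_one, one_mul, ← abs_neg]
    exact le_of_eq (congrArg abs (by ring))
  refine ⟨L, hL, fun t => g (L - t), ?_, ?_, ?_, ?_⟩
  · have := hg.comp hr
    rwa [one_mul] at this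
  · simp only [sub_zero]; exact h1
  · simp only [sub_self]; exact h0
  · have him : (fun t : ℝ => L - t) '' Icc 0 L = Icc 0 L := by
      rw [image_const_sub_Icc, sub_self, sub_zero]
    have h3 := push_le hr (Icc 0 L) (f := fun t => ρ (g (L - t)))
      (hρ.comp (hg.continuous.comp hr.continuous).measurable)
    rw [him, ENNReal.coe_one, one_mul] at h3
    refine h3.trans (le_trans (le_of_eq ?_) h2)
    refine lintegral_congr fun t => ?_
    rw [sub_sub_cancel]

lemma Reach.trans {ρ : Plane → ℝ≥0∞} (hρ : Measurable ρ) {p q r : Plane} {c d : ℝ≥0∞}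
    (h : Reach ρ p q c) (h' : Reach ρ q r d) : Reach ρ p r (c + d) := by
  obtain ⟨L, hL, g, hg, h0, h1, h2⟩ := h
  obtain ⟨L', hL', g', hg', h0', h1', h2'⟩ := h'
  have hr : LipschitzWith 1 fun t : ℝ => L + t := by
    refine LipschitzWith.of_dist_le_mul fun x y => ?_
    rw [Real.dist_eq, Real.dist_eq, NNReal.coe_one, one_mul]
    exact le_of_eq (congrArg abs (by ring))
  set G : ℝ → Plane := fun t => if t ≤ L then g t else g' (t - L) with hG
  have hG1 : ∀ t, t ≤ L → G t = g t := fun t ht => by simp only [hG, if_pos ht]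
  have hG2 : ∀ t, L ≤ t → G t = g' (t - L) := by
    intro t ht
    rcases ht.eq_or_lt with h | h
    · rw [← h, hG1 L le_rfl, sub_self, h1, h0']
    · simp only [hG, if_neg (not_le.2 h)]
  have hGlip : LipschitzWith 1 G := by
    have key : ∀ x y : ℝ, x ≤ y → dist (G x) (G y) ≤ dist x y := by
      intro x y hxy
      rcases le_total y L with hy | hy
      · rw [hG1 x (hxy.trans hy), hG1 y hy]
        simpa using hg.dist_le_mul x y
      · rcases le_total x L with hx | hx
        · rw [hG1 x hx, hG2 y hy]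
          have e1 : dist (g x) (g L) ≤ dist x L := by simpa using hg.dist_le_mul x L
          have e2 : dist (g' 0) (g' (y - L)) ≤ dist (0 : ℝ) (y - L) := by
            simpa using hg'.dist_le_mul 0 (y - L)
          have e3 : dist (g x) (g' (y - L)) ≤ dist (g x) (g L) + dist (g' 0) (g' (y - L)) := by
            rw [h1, h0']; exact dist_triangle _ _ _
          refine e3.trans ((add_le_add e1 e2).trans (le_of_eq ?_))
          rw [Real.dist_eq, Real.dist_eq, Real.dist_eq, abs_of_nonpos (by linarith),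
            abs_of_nonpos (by linarith), abs_of_nonpos (by linarith)]
          ring
        · rw [hG2 x hx, hG2 y hy]
          have := hg'.dist_le_mul (x - L) (y - L)
          rw [NNReal.coe_one, one_mul] at this
          refine this.trans (le_of_eq ?_)
          rw [Real.dist_eq, Real.dist_eq]
          congr 1
          ring
    refine LipschitzWith.of_dist_le_mul fun x y => ?_
    rw [NNReal.coe_one, one_mul]
    rcases le_total x y with h | h
    · exact key x y h
    · rw [dist_comm, dist_comm x y]; exact key y x h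
  refine ⟨L + L', by linarith, G, hGlip, ?_, ?_, ?_⟩
  · rw [hG1 0 hL, h0]
  · rw [hG2 _ (by linarith), add_sub_cancel_left, h1']
  · have hGm : Measurable fun t => ρ (G t) := hρ.comp hGlip.continuous.measurable
    have hsub : Icc 0 (L + L') ⊆ Icc 0 L ∪ Icc L (L + L') := by
      intro t ht
      rcases le_total t L with h | h
      · exact Or.inl ⟨ht.1, h⟩
      · exact Or.inr ⟨h, ht.2⟩
    have him : (fun t : ℝ => L + t) '' Icc 0 L' = Icc L (L + L') := by
      rw [image_const_add_Icc, add_zero]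
    calc ∫⁻ t in Icc 0 (L + L'), ρ (G t) ≤ ∫⁻ t in Icc 0 L ∪ Icc L (L + L'), ρ (G t) :=
          lintegral_mono_set hsub
      _ ≤ (∫⁻ t in Icc 0 L, ρ (G t)) + ∫⁻ t in Icc L (L + L'), ρ (G t) := lintegral_union_le (fun t => ρ (G t)) (Icc 0 L) (Icc L (L + L'))
      _ ≤ c + d := by
          refine add_le_add ?_ ?_
          · refine le_trans (le_of_eq ?_) h2
            exact setLIntegral_congr_fun measurableSet_Icc fun t ht => by rw [hG1 t ht.2]
          · rw [← him]
            refine (push_le hr (Icc 0 L') hGm).trans ?_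
            rw [ENNReal.coe_one, one_mul]
            refine le_trans (le_of_eq ?_) h2'
            refine setLIntegral_congr_fun measurableSet_Icc fun t ht => ?_
            rw [hG2 _ (by linarith [ht.1]), add_sub_cancel_left]

/-- A piece of a 1-Lipschitz path. -/
lemma Reach.piece {ρ : Plane → ℝ≥0∞} (hρ : Measurable ρ) {g : ℝ → Plane} (hg : LipschitzWith 1 g)
    {s t : ℝ} (hst : s ≤ t) : Reach ρ (g s) (g t) (∫⁻ x in Icc s t, ρ (g x)) := by
  have hr : LipschitzWith 1 fun t : ℝ => s + t := by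
    refine LipschitzWith.of_dist_le_mul fun x y => ?_
    rw [Real.dist_eq, Real.dist_eq, NNReal.coe_one, one_mul]
    exact le_of_eq (congrArg abs (by ring))
  have hr' : LipschitzWith 1 fun t : ℝ => t - s := by
    refine LipschitzWith.of_dist_le_mul fun x y => ?_
    rw [Real.dist_eq, Real.dist_eq, NNReal.coe_one, one_mul]
    exact le_of_eq (congrArg abs (by ring))
  refine ⟨t - s, by linarith, fun x => g (s + x), ?_, ?_, ?_, ?_⟩
  · have := hg.comp hr
    rwa [one_mul] at this
  · simp only [add_zero]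
  · simp only; congr 1; ring
  · have him : (fun t : ℝ => t - s) '' Icc s t = Icc 0 (t - s) := by
      rw [image_sub_const_Icc, sub_self]
    rw [← him]
    refine (push_le hr' (Icc s t) (f := fun x => ρ (g (s + x)))
      (hρ.comp (hg.continuous.comp hr.continuous).measurable)).trans ?_
    rw [ENNReal.coe_one, one_mul]
    refine le_of_eq (lintegral_congr fun x => ?_)
    rw [add_sub_cancel]

/-- The pieces of a rectifiable curve. -/
lemma reach_of_curve {ρ : Plane → ℝ≥0∞} (hρ : Measurable ρ) {γ : ℝ → Plane} {a b : ℝ}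
    (hr : IsRectifiable γ a b) {s t : ℝ} (hs : s ∈ Icc a b) (ht : t ∈ Icc a b) :
    Reach ρ (γ s) (γ t) (lineIntegral ρ γ a b) := by
  have key : ∀ s ∈ Icc a b, ∀ t ∈ Icc a b, s ≤ t → Reach ρ (γ s) (γ t) (lineIntegral ρ γ a b) := by
    intro s hs t ht hst
    set ℓ := (eVariationOn γ (Icc a b)).toReal with hℓ
    have hℓ0 : 0 ≤ ℓ := ENNReal.toReal_nonneg
    set N := naturalParameterization γ (Icc a b) a with hN
    set v := variationOnFromTo γ (Icc a b) a with hv
    have hNlip := natural_lipschitz hr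
    have hlip : LipschitzWith 1 fun y : ℝ => N (projIcc 0 ℓ hℓ0 y) := by
      refine LipschitzWith.of_dist_le_mul fun x y => ?_
      have h1 := hNlip.dist_le_mul _ (projIcc 0 ℓ hℓ0 x).2 _ (projIcc 0 ℓ hℓ0 y).2
      refine h1.trans ?_
      have h2 := (LipschitzWith.projIcc hℓ0).dist_le_mul x y
      rw [NNReal.coe_one, one_mul] at h2 ⊢
      rw [one_mul]
      exact h2
    have hmem : ∀ x ∈ Icc a b, v x ∈ Icc 0 ℓ := by
      intro x hx
      rw [← image_variation hr]
      exact ⟨x, hx, rfl⟩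
    have hmono := variationOnFromTo.monotoneOn (lbv hr.2.2) (a := a) ⟨le_rfl, hr.1⟩
    have h1 := Reach.piece hρ hlip (hmono hs ht hst)
    have hval : ∀ x ∈ Icc a b, N (projIcc 0 ℓ hℓ0 (v x)) = γ x := by
      intro x hx
      rw [projIcc_of_mem hℓ0 (hmem x hx)]
      exact natural_apply hr hx
    rw [← hv, hval s hs, hval t ht] at h1
    refine h1.mono ?_
    calc ∫⁻ x in Icc (v s) (v t), ρ (N (projIcc 0 ℓ hℓ0 x))
        ≤ ∫⁻ x in Icc 0 ℓ, ρ (N (projIcc 0 ℓ hℓ0 x)) :=
          lintegral_mono_set (Icc_subset_Icc (hmem s hs).1 (hmem t ht).2)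
      _ = lineIntegral ρ γ a b := by
          refine setLIntegral_congr_fun measurableSet_Icc fun y hy => ?_
          rw [projIcc_of_mem hℓ0 hy]
  rcases le_total s t with h | h
  · exact key s hs t ht h
  · exact (key t ht s hs h).symm hρ

/-- Small initial pieces reach all small circles. -/
lemma Reach.small {ρ : Plane → ℝ≥0∞} (hρ : Measurable ρ) {e p : Plane} {c : ℝ≥0∞}
    (h : Reach ρ e p c) (hc : c ≠ ⊤) (hp : p ≠ e) {ε : ℝ≥0∞} (hε : ε ≠ 0) :
    ∃ d : ℝ, 0 < d ∧ ∀ s, 0 < s → s < d → ∃ q, dist q e = s ∧ Reach ρ e q ε := by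
  obtain ⟨L, hL, g, hg, h0, h1, h2⟩ := h
  have hgm : Measurable fun t => ρ (g t) := hρ.comp hg.continuous.measurable
  -- the last time at `e`
  set K : Set ℝ := {t ∈ Icc 0 L | g t = e} with hK
  have hKc : IsCompact K := isCompact_Icc.inter_right (isClosed_singleton.preimage hg.continuous)
  obtain ⟨T, hTK, hTmax⟩ := hKc.exists_isGreatest ⟨0, ⟨le_rfl, hL⟩, h0⟩
  have hT0 : 0 ≤ T := hTK.1.1
  have hTL : T < L := by
    refine lt_of_le_of_ne hTK.1.2 fun h => hp ?_
    rw [← h1, ← h, hTK.2]
  -- a small piece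
  have hfin : ∫⁻ t in Icc T L, ρ (g t) ≠ ⊤ :=
    (((lintegral_mono_set (Icc_subset_Icc_left hT0)).trans h2).trans_lt (lt_top_iff_ne_top.2 hc)).ne
  obtain ⟨δ, hδ, hsm⟩ := exists_pos_setLIntegral_lt_of_measure_lt hfin hε
  obtain ⟨r, hr0, hr⟩ := ENNReal.lt_iff_exists_nnreal_btwn.1 hδ
  have hr0' : (0 : ℝ) < r := by exact_mod_cast hr0
  set t₀ : ℝ := T + min (L - T) r with ht₀
  have ht₀T : T < t₀ := by
    have : 0 < min (L - T) (r : ℝ) := lt_min (by linarith) hr0'
    linarith
  have ht₀L : t₀ ≤ L := by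
    have : min (L - T) (r : ℝ) ≤ L - T := min_le_left _ _
    linarith
  have hsmall : ∫⁻ x in Icc T t₀, ρ (g x) < ε := by
    have h3 := hsm (Icc T t₀) (by
      rw [Measure.restrict_apply measurableSet_Icc]
      refine (measure_mono inter_subset_left).trans_lt ?_
      rw [Real.volume_Icc]
      refine lt_of_le_of_lt ?_ hr
      rw [← ENNReal.ofReal_coe_nnreal]
      refine ENNReal.ofReal_le_ofReal ?_
      have : min (L - T) (r : ℝ) ≤ r := min_le_right _ _
      linarith)
    rwa [Measure.restrict_restrict measurableSet_Icc, inter_eq_self_of_subset_left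
      (Icc_subset_Icc_right ht₀L)] at h3
  have hne : g t₀ ≠ e := fun h => absurd (hTmax ⟨⟨hT0.trans ht₀T.le, ht₀L⟩, h⟩) (not_le.2 ht₀T)
  refine ⟨dist (g t₀) e, dist_pos.2 hne, fun s hs0 hs => ?_⟩
  have hcont : ContinuousOn (fun t => dist (g t) e) (Icc T t₀) :=
    (hg.continuous.dist continuous_const).continuousOn
  obtain ⟨t, ht, hts⟩ := intermediate_value_Icc ht₀T.le hcont (show s ∈ Icc (dist (g T) e) (dist (g t₀) e)
    from ⟨by rw [hTK.2, dist_self]; exact hs0.le, hs.le⟩)
  refine ⟨g t, hts, ?_⟩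
  have h4 := Reach.piece hρ hg ht.1
  rw [hTK.2] at h4
  exact h4.mono ((lintegral_mono_set (Icc_subset_Icc_right ht.2)).trans hsmall.le)

/-- Arcs of circles. -/
lemma Reach.arc {ρ : Plane → ℝ≥0∞} (hρ : Measurable ρ) (e : Plane) {s : ℝ} (hs : 0 < s) {x y : ℝ}
    (hx : x ∈ Icc (-Real.pi) Real.pi) (hy : y ∈ Icc (-Real.pi) Real.pi) :
    Reach ρ (circ e s x) (circ e s y)
      (ENNReal.ofReal s * ∫⁻ θ in Ioc (-Real.pi) Real.pi, ρ (circ e s θ)) := by
  have key : ∀ x ∈ Icc (-Real.pi) Real.pi, ∀ y ∈ Icc (-Real.pi) Real.pi, x ≤ y →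
      Reach ρ (circ e s x) (circ e s y)
      (ENNReal.ofReal s * ∫⁻ θ in Ioc (-Real.pi) Real.pi, ρ (circ e s θ)) := by
    intro x hx y hy hxy
    have hinv : LipschitzWith (Real.toNNReal s)⁻¹ fun t : ℝ => t / s := by
      refine LipschitzWith.of_dist_le_mul fun u w => ?_
      rw [Real.dist_eq, Real.dist_eq, ← sub_div, abs_div, abs_of_pos hs, NNReal.coe_inv,
        Real.coe_toNNReal s hs.le, div_eq_inv_mul]
    have hmul : LipschitzWith (Real.toNNReal s) fun t : ℝ => t * s := by
      refine LipschitzWith.of_dist_le_mul fun u w => ?_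
      rw [Real.dist_eq, Real.dist_eq, ← sub_mul, abs_mul, abs_of_pos hs,
        Real.coe_toNNReal s hs.le, mul_comm]
    have hg : LipschitzWith 1 fun t : ℝ => circ e s (t / s) := by
      have := (circ_lipschitz e hs.le).comp hinv
      rwa [mul_inv_cancel₀ (by rw [Ne, Real.toNNReal_eq_zero, not_le]; exact hs)] at this
    have h1 := Reach.piece hρ hg (s := x * s) (t := y * s) (by gcongr)
    rw [mul_div_assoc, mul_div_assoc, div_self hs.ne', mul_one, mul_one] at h1
    refine h1.mono ?_
    have him : (fun t : ℝ => t * s) '' Icc x y = Icc (x * s) (y * s) := by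
      rw [image_mul_right_Icc hxy hs.le]
    rw [← him]
    refine (push_le hmul (Icc x y) (f := fun t => ρ (circ e s (t / s)))
      (hρ.comp hg.continuous.measurable)).trans ?_
    have e1 : ((Real.toNNReal s : ℝ≥0) : ℝ≥0∞) = ENNReal.ofReal s := rfl
    rw [e1]
    refine mul_le_mul_right ?_ _
    calc ∫⁻ t in Icc x y, ρ (circ e s (t * s / s)) = ∫⁻ t in Icc x y, ρ (circ e s t) := by
          refine lintegral_congr fun t => ?_
          rw [mul_div_assoc, div_self hs.ne', mul_one]
      _ = ∫⁻ t in Ioc x y, ρ (circ e s t) := setLIntegral_congr Ioc_ae_eq_Icc.symm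
      _ ≤ _ := lintegral_mono_set (Ioc_subset_Ioc hx.1 hy.2)
  rcases le_total x y with h | h
  · exact key x hx y hy h
  · exact (key y hy x hx h).symm hρ

/-- Radial segments. -/
lemma Reach.radial {ρ : Plane → ℝ≥0∞} (hρ : Measurable ρ) (e : Plane) (θ : ℝ) {r r' : ℝ}
    (h : r ≤ r') : Reach ρ (circ e r θ) (circ e r' θ) (∫⁻ x in Icc r r', ρ (circ e x θ)) := by
  refine Reach.piece hρ (g := fun x => circ e x θ) ?_ h
  refine LipschitzWith.of_dist_le_mul fun x y => ?_
  rw [NNReal.coe_one, one_mul]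
  refine le_of_sq_le_sq ?_ dist_nonneg
  rw [EuclideanSpace.dist_eq, Real.sq_sqrt (by positivity)]
  simp only [Fin.sum_univ_two, circ_zero, circ_one, Real.dist_eq, sq_abs]
  have h1 := Real.sin_sq_add_cos_sq θ
  exact le_of_eq (by linear_combination (x - y) ^ 2 * h1)

/-- From the circle to the circle point at angle `0`. -/
lemma Reach.to_circ {ρ : Plane → ℝ≥0∞} (hρ : Measurable ρ) {e q : Plane} {s : ℝ} (hs : 0 < s)
    (hq : dist q e = s) {y : ℝ} (hy : y ∈ Icc (-Real.pi) Real.pi) :
    Reach ρ q (circ e s y)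
      (ENNReal.ofReal s * ∫⁻ θ in Ioc (-Real.pi) Real.pi, ρ (circ e s θ)) := by
  obtain ⟨x, hx, rfl⟩ := exists_circ e q hs hq
  exact Reach.arc hρ e hs ⟨hx.1.le, hx.2⟩ hy

end Pool.Agent.GoncharIns
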